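import Mathlib

/-!
Every chain of strictly increasing quadruples (for the coordinatewise order) has a 2-colouring of
the points with no monochromatic quadruple.  The proof runs through the chain in increasing order
and keeps an explicit family of feasible colourings, described on the points from the current
first coordinate onwards.
-/

set_option autoImplicit false

namespace Pool.Agent.Lib.MP_e3676c_co

/-- The quadruple is not monochromatic. -/
def Good (χ : ℕ → Bool) (a b c d : ℕ) : Prop := ¬ (χ a = χ b ∧ χ a = χ c ∧ χ a = χ d)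

/-- `P` only depends on the colours of the points up to `d`. -/
def Loc (P : (ℕ → Bool) → Prop) (d : ℕ) : Prop :=
  ∀ χ χ' : ℕ → Bool, (∀ v, v ≤ d → χ v = χ' v) → P χ → P χ'

/-- Some colouring with property `P` follows the pattern `f`, up to swapping the two colours,
from the point `a` onwards. -/
def Has (P : (ℕ → Bool) → Prop) (a : ℕ) (f : ℕ → Prop) : Prop :=
  ∃ (χ : ℕ → Bool) (κ : Bool), P χ ∧ ∀ v, a ≤ v → (χ v = κ ↔ f v)

theorem Has.step {P : (ℕ → Bool) → Prop} {a d : ℕ} {f : ℕ → Prop} (h : Has P a f)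
    (hl : Loc P d) {a' b' c' d' : ℕ} (g : ℕ → Prop) (ha : a ≤ a') (hb : a' < b') (hc : b' < c')
    (hd : c' < d')
    (hfg : (∀ v, a' ≤ v → v ≤ d → (g v ↔ f v)) ∨ (∀ v, a' ≤ v → v ≤ d → (g v ↔ ¬ f v)))
    (hg : ¬ ((g a' ↔ g b') ∧ (g a' ↔ g c') ∧ (g a' ↔ g d'))) :
    Has (fun χ => P χ ∧ Good χ a' b' c' d') a' g := by
  classical
  obtain ⟨χ, κ, hP, hχ⟩ := h
  have key : ∃ κ' : Bool, ∀ v, a' ≤ v → v ≤ d → (χ v = κ' ↔ g v) := by
    rcases hfg with hfg | hfg
    · exact ⟨κ, fun v h1 h2 => by rw [hχ v (ha.trans h1), hfg v h1 h2]⟩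
    · refine ⟨!κ, fun v h1 h2 => ?_⟩
      rw [hfg v h1 h2, ← hχ v (ha.trans h1)]
      cases χ v <;> cases κ <;> simp
  obtain ⟨κ', hκ'⟩ := key
  let χ' : ℕ → Bool := fun v => if v ≤ d then χ v else if g v then κ' else !κ'
  have h1 : ∀ v, a' ≤ v → (χ' v = κ' ↔ g v) := by
    intro v hv
    by_cases hvd : v ≤ d
    · simp only [χ', if_pos hvd]; exact hκ' v hv hvd
    · simp only [χ', if_neg hvd]
      by_cases hgv : g v
      · simp [hgv]
      · simp [hgv]
  refine ⟨χ', κ', ⟨hl χ χ' (fun v hv => by simp only [χ', if_pos hv]) hP, ?_⟩, h1⟩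
  rintro ⟨e1, e2, e3⟩
  apply hg
  rw [← h1 a' le_rfl, ← h1 b' (by omega), ← h1 c' (by omega), ← h1 d' (by omega), ← e1, ← e2, ← e3]
  exact ⟨Iff.rfl, Iff.rfl, Iff.rfl⟩

/-- The invariant, at a quadruple with first, third and fourth coordinates `a`, `c`, `d`. -/
def Inv (P : (ℕ → Bool) → Prop) (a c d : ℕ) : Prop :=
  (∃ y, a ≤ y ∧ y < c ∧ Has P a (fun v => y < v) ∧
    (∀ j, c ≤ j → j < d → Has P a (fun v => j < v) ∨ Has P a (fun v => j < v ∨ v = y) ∨
      Has P a (fun v => y < v ∧ v ≤ j)) ∧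
    (∀ z, c ≤ z → z < d → Has P a (fun v => z ≤ v) ∨
      (y + 1 < z ∧ Has P a (fun v => z ≤ v ∨ v = y)) ∨ Has P a (fun v => y < v ∧ v ≠ z))) ∨
  (Has P a (fun v => c < v) ∧
    (∀ j, c < j → j < d → Has P a (fun v => j < v) ∨ Has P a (fun v => j < v ∨ v = c)) ∧
    Has P a (fun v => v = c))

theorem Inv.exists {P : (ℕ → Bool) → Prop} {a c d : ℕ} (h : Inv P a c d) : ∃ χ, P χ := by
  rcases h with ⟨y, -, -, ⟨χ, -, h, -⟩, -⟩ | ⟨⟨χ, -, h, -⟩, -⟩ <;> exact ⟨χ, h⟩

theorem inv_init {a b c d : ℕ} (hb : a < b) (hc : b < c) (hd : c < d) :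
    Inv (fun χ => Good χ a b c d) a c d := by
  have h0 : ∀ j, a ≤ j → j < d → Has (fun χ => Good χ a b c d) a (fun v => j < v) := by
    intro j h1 h2
    refine ⟨fun v => decide (j < v), true, ?_, fun v _ => by simp⟩
    rintro ⟨-, -, e3⟩
    simp only [decide_eq_decide] at e3
    omega
  refine Or.inl ⟨c - 1, by omega, by omega, h0 _ (by omega) (by omega),
    fun j h1 h2 => Or.inl (h0 j (by omega) h2), fun z h1 h2 => Or.inl ?_⟩
  have := h0 (z - 1) (by omega) (by omega)
  have e : (fun v => z ≤ v) = (fun v => z - 1 < v) := by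
    funext v; apply propext; omega
  rw [e]; exact this

/-- Moving the three upper coordinates. -/
theorem Inv.upper {P : (ℕ → Bool) → Prop} {a c d : ℕ} (h : Inv P a c d) (hl : Loc P d)
    (hac : a < c) (hcd : c < d) {b' c' d' : ℕ} (hb : a < b') (hc : b' < c') (hd : c' < d')
    (hcc : c ≤ c') (hdd : d ≤ d') :
    Inv (fun χ => P χ ∧ Good χ a b' c' d') a c' d' := by
  rcases h with ⟨y, hy1, hy2, h1, h2, h3⟩ | ⟨h1, h2, h3⟩
  · refine Or.inl ⟨y, hy1, by omega,
      h1.step hl _ le_rfl hb hc hd (Or.inl fun v _ _ => Iff.rfl) (by omega), ?_, ?_⟩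
    · intro j j1 j2
      by_cases hj : j < d
      · rcases h2 j (by omega) hj with h | h | h
        · exact Or.inl (h.step hl _ le_rfl hb hc hd (Or.inl fun v _ _ => Iff.rfl) (by omega))
        · exact Or.inr (Or.inl
            (h.step hl _ le_rfl hb hc hd (Or.inl fun v _ _ => Iff.rfl) (by omega)))
        · exact Or.inr (Or.inr
            (h.step hl _ le_rfl hb hc hd (Or.inl fun v _ _ => Iff.rfl) (by omega)))
      · exact Or.inr (Or.inr
          (h1.step hl _ le_rfl hb hc hd (Or.inl fun v _ _ => by omega) (by omega)))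
    · intro z z1 z2
      rcases lt_trichotomy z d with hz | hz | hz
      · rcases h3 z (by omega) hz with h | ⟨h', h⟩ | h
        · exact Or.inl (h.step hl _ le_rfl hb hc hd (Or.inl fun v _ _ => Iff.rfl) (by omega))
        · exact Or.inr (Or.inl ⟨h',
            h.step hl _ le_rfl hb hc hd (Or.inl fun v _ _ => Iff.rfl) (by omega)⟩)
        · exact Or.inr (Or.inr
            (h.step hl _ le_rfl hb hc hd (Or.inl fun v _ _ => Iff.rfl) (by omega)))
      · rcases h2 (d - 1) (by omega) (by omega) with h | h | h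
        · exact Or.inl (h.step hl _ le_rfl hb hc hd (Or.inl fun v _ _ => by omega) (by omega))
        · exact Or.inr (Or.inl ⟨by omega,
            h.step hl _ le_rfl hb hc hd (Or.inl fun v _ _ => by omega) (by omega)⟩)
        · exact Or.inr (Or.inr
            (h.step hl _ le_rfl hb hc hd (Or.inl fun v _ _ => by omega) (by omega)))
      · exact Or.inr (Or.inr
          (h1.step hl _ le_rfl hb hc hd (Or.inl fun v _ _ => by omega) (by omega)))
  · have key : ∀ j, c < j → j < d' →
        Has (fun χ => P χ ∧ Good χ a b' c' d') a (fun v => j < v) ∨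
        Has (fun χ => P χ ∧ Good χ a b' c' d') a (fun v => j < v ∨ v = c) := by
      intro j j1 j2
      by_cases hj : j < d
      · rcases h2 j j1 hj with h | h
        · exact Or.inl (h.step hl _ le_rfl hb hc hd (Or.inl fun v _ _ => Iff.rfl) (by omega))
        · exact Or.inr (h.step hl _ le_rfl hb hc hd (Or.inl fun v _ _ => Iff.rfl) (by omega))
      · exact Or.inr (h3.step hl _ le_rfl hb hc hd (Or.inl fun v _ _ => by omega) (by omega))
    have k1 : Has (fun χ => P χ ∧ Good χ a b' c' d') a (fun v => c < v) :=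
      h1.step hl _ le_rfl hb hc hd (Or.inl fun v _ _ => Iff.rfl) (by omega)
    rcases hcc.eq_or_lt with rfl | hlt
    · exact Or.inr ⟨k1, key,
        h3.step hl _ le_rfl hb hc hd (Or.inl fun v _ _ => Iff.rfl) (by omega)⟩
    · refine Or.inl ⟨c, hac.le, hlt, k1, ?_, ?_⟩
      · intro j j1 j2
        rcases key j (by omega) j2 with h | h
        · exact Or.inl h
        · exact Or.inr (Or.inl h)
      · intro z z1 z2
        by_cases hz : z = c + 1
        · subst hz
          exact Or.inl k1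
        · have e1 : (fun v => z ≤ v) = (fun v => z - 1 < v) := by
            funext v; apply propext; omega
          have e2 : (fun v => z ≤ v ∨ v = c) = (fun v => z - 1 < v ∨ v = c) := by
            funext v; apply propext; omega
          rcases key (z - 1) (by omega) (by omega) with h | h
          · exact Or.inl (e1 ▸ h)
          · exact Or.inr (Or.inl ⟨by omega, e2 ▸ h⟩)

/-- Moving the first coordinate. -/
theorem Inv.lower {P : (ℕ → Bool) → Prop} {a c d : ℕ} (h : Inv P a c d) (hl : Loc P d)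
    {a' b : ℕ} (ha : a ≤ a') (hb : a' < b) (hc : b < c) (hd : c < d) :
    Inv (fun χ => P χ ∧ Good χ a' b c d) a' c d := by
  rcases h with ⟨y, hy1, hy2, h1, h2, h3⟩ | ⟨h1, h2, h3⟩
  · by_cases hy : a' ≤ y
    · refine Or.inl ⟨y, hy, hy2,
        h1.step hl _ ha hb hc hd (Or.inl fun v _ _ => Iff.rfl) (by omega), ?_, ?_⟩
      · intro j j1 j2
        rcases h2 j j1 j2 with h | h | h
        · exact Or.inl (h.step hl _ ha hb hc hd (Or.inl fun v _ _ => Iff.rfl) (by omega))
        · exact Or.inr (Or.inl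
            (h.step hl _ ha hb hc hd (Or.inl fun v _ _ => Iff.rfl) (by omega)))
        · exact Or.inr (Or.inr
            (h.step hl _ ha hb hc hd (Or.inl fun v _ _ => Iff.rfl) (by omega)))
      · intro z z1 z2
        rcases h3 z z1 z2 with h | ⟨h', h⟩ | h
        · exact Or.inl (h.step hl _ ha hb hc hd (Or.inl fun v _ _ => Iff.rfl) (by omega))
        · exact Or.inr (Or.inl ⟨h',
            h.step hl _ ha hb hc hd (Or.inl fun v _ _ => Iff.rfl) (by omega)⟩)
        · exact Or.inr (Or.inr
            (h.step hl _ ha hb hc hd (Or.inl fun v _ _ => Iff.rfl) (by omega)))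
    · have key : ∀ j, c ≤ j → j < d →
          Has (fun χ => P χ ∧ Good χ a' b c d) a' (fun v => j < v) := by
        intro j j1 j2
        rcases h2 j j1 j2 with h | h | h
        · exact h.step hl _ ha hb hc hd (Or.inl fun v _ _ => Iff.rfl) (by omega)
        · exact h.step hl _ ha hb hc hd (Or.inl fun v _ _ => by omega) (by omega)
        · exact h.step hl _ ha hb hc hd (Or.inr fun v _ _ => by omega) (by omega)
      have fin : Has (fun χ => P χ ∧ Good χ a' b c d) a' (fun v => c - 1 < v) →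
          Inv (fun χ => P χ ∧ Good χ a' b c d) a' c d := by
        intro k1
        refine Or.inl ⟨c - 1, by omega, by omega, k1, fun j j1 j2 => Or.inl (key j j1 j2),
          fun z z1 z2 => Or.inl ?_⟩
        have e1 : (fun v => z ≤ v) = (fun v => z - 1 < v) := by
          funext v; apply propext; omega
        rw [e1]
        by_cases hz : z = c
        · rw [hz]; exact k1
        · exact key (z - 1) (by omega) (by omega)
      rcases h3 c le_rfl hd with h | ⟨h', h⟩ | h
      · exact fin (h.step hl _ ha hb hc hd (Or.inl fun v _ _ => by omega) (by omega))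
      · exact fin (h.step hl _ ha hb hc hd (Or.inl fun v _ _ => by omega) (by omega))
      · exact Or.inr ⟨key c le_rfl hd, fun j j1 j2 => Or.inl (key j j1.le j2),
          h.step hl _ ha hb hc hd (Or.inr fun v _ _ => by omega) (by omega)⟩
  · refine Or.inr ⟨h1.step hl _ ha hb hc hd (Or.inl fun v _ _ => Iff.rfl) (by omega), ?_,
      h3.step hl _ ha hb hc hd (Or.inl fun v _ _ => Iff.rfl) (by omega)⟩
    intro j j1 j2
    rcases h2 j j1 j2 with h | h
    · exact Or.inl (h.step hl _ ha hb hc hd (Or.inl fun v _ _ => Iff.rfl) (by omega))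
    · exact Or.inr (h.step hl _ ha hb hc hd (Or.inl fun v _ _ => Iff.rfl) (by omega))

theorem Has.mono {P Q : (ℕ → Bool) → Prop} (hPQ : ∀ χ, P χ → Q χ) {a : ℕ} {f : ℕ → Prop}
    (h : Has P a f) : Has Q a f := by
  obtain ⟨χ, κ, h1, h2⟩ := h
  exact ⟨χ, κ, hPQ χ h1, h2⟩

theorem Inv.mono {P Q : (ℕ → Bool) → Prop} (hPQ : ∀ χ, P χ → Q χ) {a c d : ℕ}
    (h : Inv P a c d) : Inv Q a c d := by
  rcases h with ⟨y, hy1, hy2, h1, h2, h3⟩ | ⟨h1, h2, h3⟩
  · refine Or.inl ⟨y, hy1, hy2, h1.mono hPQ, fun j j1 j2 => ?_, fun z z1 z2 => ?_⟩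
    · rcases h2 j j1 j2 with h | h | h
      · exact Or.inl (h.mono hPQ)
      · exact Or.inr (Or.inl (h.mono hPQ))
      · exact Or.inr (Or.inr (h.mono hPQ))
    · rcases h3 z z1 z2 with h | ⟨h', h⟩ | h
      · exact Or.inl (h.mono hPQ)
      · exact Or.inr (Or.inl ⟨h', h.mono hPQ⟩)
      · exact Or.inr (Or.inr (h.mono hPQ))
  · refine Or.inr ⟨h1.mono hPQ, fun j j1 j2 => ?_, h3.mono hPQ⟩
    rcases h2 j j1 j2 with h | h
    · exact Or.inl (h.mono hPQ)
    · exact Or.inr (h.mono hPQ)

theorem good_congr {χ χ' : ℕ → Bool} {a b c d D : ℕ} (h : ∀ v, v ≤ D → χ v = χ' v)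
    (hb : a < b) (hc : b < c) (hd : c < d) (hD : d ≤ D) (hg : Good χ a b c d) :
    Good χ' a b c d := by
  unfold Good at hg ⊢
  rwa [← h a (by omega), ← h b (by omega), ← h c (by omega), ← h d hD]

/-- Every finite chain of increasing quadruples is 2-colourable. -/
theorem colour_chain (E : Finset (Fin 4 → ℕ)) (hE : ∀ e ∈ E, e 0 < e 1 ∧ e 1 < e 2 ∧ e 2 < e 3)
    (hch : ∀ e ∈ E, ∀ e' ∈ E, e ≤ e' ∨ e' ≤ e) :
    ∃ χ : ℕ → Bool, ∀ e ∈ E, Good χ (e 0) (e 1) (e 2) (e 3) := by
  classical
  have main : ∀ s : Finset (Fin 4 → ℕ), s ⊆ E → s = ∅ ∨ ∃ t ∈ s, (∀ e ∈ s, e ≤ t) ∧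
      Inv (fun χ => ∀ e ∈ s, Good χ (e 0) (e 1) (e 2) (e 3)) (t 0) (t 2) (t 3) := by
    intro s
    induction s using Finset.induction_on_max_value (fun e : Fin 4 → ℕ => e 0 + e 1 + e 2 + e 3)
      with
    | empty => intro _; exact Or.inl rfl
    | insert u s hu hmax ih =>
      intro hsub
      have huE : u ∈ E := hsub (Finset.mem_insert_self _ _)
      have hsE : s ⊆ E := fun e he => hsub (Finset.mem_insert_of_mem he)
      obtain ⟨u1, u2, u3⟩ := hE u huE
      have hle : ∀ e ∈ s, e ≤ u := by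
        intro e he
        rcases hch e (hsE he) u huE with h | h
        · exact h
        · have h0 : u 0 ≤ e 0 := h 0
          have h1 : u 1 ≤ e 1 := h 1
          have h2 : u 2 ≤ e 2 := h 2
          have h3 : u 3 ≤ e 3 := h 3
          have := hmax e he
          intro i
          fin_cases i <;> simp <;> omega
      refine Or.inr ⟨u, Finset.mem_insert_self _ _, ?_, ?_⟩
      · intro e he
        rcases Finset.mem_insert.1 he with rfl | he
        · exact le_rfl
        · exact hle e he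
      · rcases ih hsE with rfl | ⟨t, ht, htop, hinv⟩
        · refine (inv_init u1 u2 u3).mono fun χ h e he => ?_
          rcases Finset.mem_insert.1 he with rfl | he
          · exact h
          · simp at he
        · obtain ⟨t1, t2, t3⟩ := hE t (hsE ht)
          have h0 : t 0 ≤ u 0 := hle t ht 0
          have h2 : t 2 ≤ u 2 := hle t ht 2
          have h3 : t 3 ≤ u 3 := hle t ht 3
          have hl : ∀ D, t 3 ≤ D →
              Loc (fun χ => ∀ e ∈ s, Good χ (e 0) (e 1) (e 2) (e 3)) D := by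
            intro D hD χ χ' h hP e he
            obtain ⟨e1, e2, e3⟩ := hE e (hsE he)
            exact good_congr h e1 e2 e3 ((htop e he 3).trans hD) (hP e he)
          have i1 := hinv.upper (hl _ le_rfl) (by omega) t3 (b' := u 1) (by omega) u2 u3 h2 h3
          have hl2 : Loc (fun χ => (∀ e ∈ s, Good χ (e 0) (e 1) (e 2) (e 3)) ∧
              Good χ (t 0) (u 1) (u 2) (u 3)) (u 3) := fun χ χ' h hP =>
            ⟨hl _ h3 χ χ' h hP.1, good_congr h (by omega) u2 u3 le_rfl hP.2⟩
          have i2 := i1.lower hl2 h0 u1 u2 u3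
          refine i2.mono fun χ h e he => ?_
          rcases Finset.mem_insert.1 he with rfl | he
          · exact h.2
          · exact h.1.1 e he
  rcases main E subset_rfl with rfl | ⟨t, -, -, hinv⟩
  · exact ⟨fun _ => true, by simp⟩
  · exact hinv.exists

end Pool.Agent.Lib.MP_e3676c_co
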