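import Pool.Agent.Lib.MP_e3676c_co.Core

set_option autoImplicit false

namespace Pool.Agent.Lib.MP_e3676c_co

/-- Every `m`-uniform shift-chain with `m ≥ 4` is 2-colourable. -/
theorem two_colourable (m : ℕ) (hm : 4 ≤ m) (n : ℕ) (H : Finset (Finset (Fin n)))
    (hH : ∀ A ∈ H, A.card = m)
    (hch : ∀ A (hA : A ∈ H) B (hB : B ∈ H),
      (∀ i : Fin m, A.orderEmbOfFin (hH A hA) i ≤ B.orderEmbOfFin (hH B hB) i) ∨
      (∀ i : Fin m, B.orderEmbOfFin (hH B hB) i ≤ A.orderEmbOfFin (hH A hA) i)) :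
    ∃ c : Fin n → Bool, ∀ A ∈ H, ∃ x ∈ A, ∃ y ∈ A, c x ≠ c y := by
  classical
  let q : {A // A ∈ H} → Fin 4 → ℕ := fun A i =>
    (A.1.orderEmbOfFin (hH A.1 A.2) (Fin.castLE hm i)).val
  have hq : ∀ A : {A // A ∈ H}, StrictMono (q A) := by
    intro A i j hij
    exact (A.1.orderEmbOfFin (hH A.1 A.2)).strictMono ((Fin.strictMono_castLE hm) hij)
  obtain ⟨χ, hχ⟩ := colour_chain (H.attach.image q)
    (by
      intro e he
      obtain ⟨A, -, rfl⟩ := Finset.mem_image.1 he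
      exact ⟨hq A (by decide), hq A (by decide), hq A (by decide)⟩)
    (by
      intro e he e' he'
      obtain ⟨A, -, rfl⟩ := Finset.mem_image.1 he
      obtain ⟨B, -, rfl⟩ := Finset.mem_image.1 he'
      rcases hch A.1 A.2 B.1 B.2 with h | h
      · exact Or.inl fun i => h (Fin.castLE hm i)
      · exact Or.inr fun i => h (Fin.castLE hm i))
  refine ⟨fun x => χ x.val, fun A hA => ?_⟩
  have hg := hχ (q ⟨A, hA⟩) (Finset.mem_image.2 ⟨⟨A, hA⟩, Finset.mem_attach _ _, rfl⟩)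
  by_contra hcon
  push Not at hcon
  have key : ∀ i j : Fin 4, χ (q ⟨A, hA⟩ i) = χ (q ⟨A, hA⟩ j) := fun i j =>
    hcon _ (A.orderEmbOfFin_mem (hH A hA) _) _ (A.orderEmbOfFin_mem (hH A hA) _)
  exact hg ⟨key 0 1, key 0 2, key 0 3⟩

end Pool.Agent.Lib.MP_e3676c_co
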