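import Mathlib

/-!
Two constructions of shift-chains.  In both, an edge of a chain of `m`-tuples is kept fixed while
a last coordinate runs through a block of new points, which forces the colours of the block.
-/

set_option autoImplicit false

namespace Pool.Agent.Lib.MP_e3676c_co.Sharp

/-- A chain of strictly increasing `m`-tuples with entries below `n`. -/
structure Ch {m : ℕ} (H : Set (Fin m → ℕ)) (n : ℕ) : Prop where
  mono : ∀ e ∈ H, StrictMono e
  lt : ∀ e ∈ H, ∀ i, e i < n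
  cmp : ∀ e ∈ H, ∀ e' ∈ H, e ≤ e' ∨ e' ≤ e

/-- The sum of the entries; it orders the members of a chain. -/
def rk {m : ℕ} (e : Fin m → ℕ) : ℕ := ∑ i, e i

theorem Ch.tri {m n : ℕ} {H : Set (Fin m → ℕ)} (h : Ch H n) {e e' : Fin m → ℕ} (he : e ∈ H)
    (he' : e' ∈ H) : e = e' ∨ (e ≤ e' ∧ rk e < rk e') ∨ (e' ≤ e ∧ rk e' < rk e) := by
  have key : ∀ a b : Fin m → ℕ, a ≤ b → a ≠ b → rk a < rk b := by
    intro a b hab hne
    obtain ⟨i, hi⟩ := Function.ne_iff.1 hne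
    exact Finset.sum_lt_sum (fun j _ => hab j) ⟨i, Finset.mem_univ _, (hab i).lt_of_ne hi⟩
  by_cases hne : e = e'
  · exact Or.inl hne
  · rcases h.cmp e he e' he' with h1 | h1
    · exact Or.inr (Or.inl ⟨h1, key _ _ h1 hne⟩)
    · exact Or.inr (Or.inr ⟨h1, key _ _ h1 (Ne.symm hne)⟩)

theorem Ch.rk_le {m n : ℕ} {H : Set (Fin m → ℕ)} (h : Ch H n) {e : Fin m → ℕ} (he : e ∈ H) :
    rk e ≤ m * n := by
  have := Finset.sum_le_sum (s := Finset.univ) (fun i _ => (h.lt e he i).le)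
  simpa [rk] using this

/-- Appending a last entry. -/
def ap {m : ℕ} (p : (Fin m → ℕ) × ℕ) : Fin (m + 1) → ℕ := Fin.snoc (α := fun _ => ℕ) p.1 p.2

@[simp] theorem ap_cast {m : ℕ} (p : (Fin m → ℕ) × ℕ) (i : Fin m) : ap p i.castSucc = p.1 i := by
  simp [ap]

@[simp] theorem ap_last {m : ℕ} (p : (Fin m → ℕ) × ℕ) : ap p (Fin.last m) = p.2 := by
  simp [ap]

theorem ch_ap {m n : ℕ} (S : Set ((Fin m → ℕ) × ℕ)) (h1 : ∀ p ∈ S, StrictMono p.1)
    (h2 : ∀ p ∈ S, (∀ i, p.1 i < p.2) ∧ p.2 < n)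
    (h3 : ∀ p ∈ S, ∀ q ∈ S, ((∀ i, p.1 i ≤ q.1 i) ∧ p.2 ≤ q.2) ∨
      ((∀ i, q.1 i ≤ p.1 i) ∧ q.2 ≤ p.2)) : Ch (ap '' S) n := by
  have key : ∀ p q : (Fin m → ℕ) × ℕ, (∀ i, p.1 i ≤ q.1 i) ∧ p.2 ≤ q.2 → ap p ≤ ap q := by
    intro p q h i
    induction i using Fin.lastCases with
    | last => simpa using h.2
    | cast i => simpa using h.1 i
  refine ⟨?_, ?_, ?_⟩
  · rintro _ ⟨p, hp, rfl⟩ i j hij
    induction j using Fin.lastCases with
    | last =>
      obtain ⟨i, rfl⟩ := Fin.exists_castSucc_eq.2 hij.ne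
      simpa using (h2 p hp).1 i
    | cast j =>
      obtain ⟨i, rfl⟩ := Fin.exists_castSucc_eq.2 (hij.trans (Fin.castSucc_lt_last j)).ne
      simpa using h1 p hp (Fin.castSucc_lt_castSucc_iff.1 hij)
  · rintro _ ⟨p, hp, rfl⟩ i
    induction i using Fin.lastCases with
    | last => simpa using (h2 p hp).2
    | cast i => simpa using ((h2 p hp).1 i).trans (h2 p hp).2
  · rintro _ ⟨p, hp, rfl⟩ _ ⟨q, hq, rfl⟩
    exact (h3 p hp q hq).imp (key p q) (key q p)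

theorem ch_zero : Ch (Set.univ : Set (Fin 0 → ℕ)) 0 :=
  ⟨fun _ _ i => i.elim0, fun _ _ i => i.elim0, fun _ _ _ _ => Or.inl fun i => i.elim0⟩

/-- The block of `m` points with base `b`, number `r` and residue `s` modulo six. -/
def bl (m b r s : ℕ) : Fin m → ℕ := fun j => b + 6 * (m * r + j) + s

theorem bl_mono (m b r s : ℕ) : StrictMono (bl m b r s) := by
  intro i j h
  have : (i : ℕ) < j := h
  simp only [bl]; omega

theorem bl_lt {m b r r' s : ℕ} (h : r < r') (hs : s < 6) (i : Fin m) :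
    bl m b r s i < b + 6 * (m * r') := by
  have h1 : m * (r + 1) ≤ m * r' := Nat.mul_le_mul_left m h
  have h2 := i.2
  rw [Nat.mul_succ] at h1
  simp only [bl]; omega

theorem le_bl (m b r s : ℕ) (i : Fin m) : b + 6 * (m * r) ≤ bl m b r s i := by
  simp only [bl]; omega

/-- The tuple has a point of the first colour and two points of the second colour. -/
def Good {m : ℕ} (c : ℕ → Bool) (e : Fin m → ℕ) : Prop :=
  (∃ i, c (e i) = true) ∧ ∃ i j, i ≠ j ∧ c (e i) = false ∧ c (e j) = false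

theorem Good.one {m : ℕ} {c : ℕ → Bool} {p : (Fin m → ℕ) × ℕ} (h : Good c (ap p)) :
    ∃ i, c (p.1 i) = false := by
  obtain ⟨-, i, j, h1, h2, h3⟩ := h
  induction i using Fin.lastCases with
  | last =>
    obtain ⟨j, rfl⟩ := Fin.exists_castSucc_eq.2 h1.symm
    exact ⟨j, by simpa using h3⟩
  | cast i => exact ⟨i, by simpa using h2⟩

theorem Good.red {m : ℕ} {c : ℕ → Bool} {p : (Fin m → ℕ) × ℕ} (h : Good c (ap p))
    (hv : c p.2 = false) : ∃ i, c (p.1 i) = true := by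
  obtain ⟨⟨i, h1⟩, -⟩ := h
  induction i using Fin.lastCases with
  | last => simp [hv] at h1
  | cast i => exact ⟨i, by simpa using h1⟩

theorem Good.two {m : ℕ} {c : ℕ → Bool} {p : (Fin m → ℕ) × ℕ} (h : Good c (ap p))
    (hv : c p.2 = true) : ∃ i j, i ≠ j ∧ c (p.1 i) = false ∧ c (p.1 j) = false := by
  obtain ⟨-, i, j, h1, h2, h3⟩ := h
  induction i using Fin.lastCases with
  | last => simp [hv] at h2
  | cast i =>
    induction j using Fin.lastCases with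
    | last => simp [hv] at h3
    | cast j => exact ⟨i, j, fun h => h1 (by rw [h]), by simpa using h2, by simpa using h3⟩

theorem exists_one_two (m : ℕ) :
    ∃ (n : ℕ) (H : Set (Fin m → ℕ)), Ch H n ∧ ∀ c : ℕ → Bool, ∃ e ∈ H, ¬ Good c e := by
  induction m with
  | zero => exact ⟨0, Set.univ, ch_zero, fun c => ⟨Fin.elim0, trivial, fun h => by
      obtain ⟨⟨i, -⟩, -⟩ := h
      exact i.elim0⟩⟩
  | succ m ih =>
    obtain ⟨n, H, hH, hc⟩ := ih
    obtain ⟨R, hR⟩ : ∃ R, ∀ e ∈ H, rk e < R := ⟨m * n + 1, fun e he => Nat.lt_succ_of_le (hH.rk_le he)⟩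
    obtain ⟨b, hb⟩ : ∃ b, b = n + 6 * (m * R) := ⟨_, rfl⟩
    obtain ⟨u, hu⟩ : ∃ u, u = b + 6 * (m * R) := ⟨_, rfl⟩
    have hP : ∀ e ∈ H, ∀ i, n ≤ bl m n (rk e) 0 i ∧ bl m n (rk e) 0 i < b := fun e he i =>
      ⟨le_trans (by omega) (le_bl _ _ _ _ i), hb ▸ bl_lt (hR e he) (by omega) i⟩
    have hW : ∀ e ∈ H, ∀ i, b ≤ bl m b (rk e) 0 i ∧ bl m b (rk e) 0 i < u := fun e he i =>
      ⟨le_trans (by omega) (le_bl _ _ _ _ i), hu ▸ bl_lt (hR e he) (by omega) i⟩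
    have hlt : ∀ a r r' : ℕ, r < r' → ∀ i j, bl m a r 0 i ≤ bl m a r' 0 j := fun a r r' h i j =>
      (bl_lt h (by omega) i).le.trans (le_bl _ _ _ _ j)
    let S : Set ((Fin m → ℕ) × ℕ) := {p | ∃ e ∈ H, (∃ j, p = (e, bl m n (rk e) 0 j)) ∨
      (∃ j, p = (bl m n (rk e) 0, bl m b (rk e) 0 j)) ∨ p = (bl m b (rk e) 0, u)}
    refine ⟨u + 1, ap '' S, ch_ap S ?_ ?_ ?_, ?_⟩
    · rintro p ⟨e, he, ⟨j, rfl⟩ | ⟨j, rfl⟩ | rfl⟩
      · exact hH.mono e he
      · exact bl_mono _ _ _ _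
      · exact bl_mono _ _ _ _
    · rintro p ⟨e, he, ⟨j, rfl⟩ | ⟨j, rfl⟩ | rfl⟩
      · exact ⟨fun i => (hH.lt e he i).trans_le (hP e he j).1, by have := hP e he j; dsimp only; omega⟩
      · exact ⟨fun i => (hP e he i).2.trans_le (hW e he j).1, by have := hW e he j; dsimp only; omega⟩
      · exact ⟨fun i => (hW e he i).2, Nat.lt_succ_self _⟩
    · have h12 : ∀ e ∈ H, ∀ e' ∈ H, ∀ i, e i ≤ bl m n (rk e') 0 i := fun e he e' he' i =>
        (hH.lt e he i).le.trans (hP e' he' i).1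
      have h13 : ∀ e ∈ H, ∀ e' ∈ H, ∀ i, e i ≤ bl m b (rk e') 0 i := fun e he e' he' i => by
        have := hH.lt e he i
        have := hW e' he' i
        omega
      have h23 : ∀ e ∈ H, ∀ e' ∈ H, ∀ i j, bl m n (rk e) 0 i ≤ bl m b (rk e') 0 j :=
        fun e he e' he' i j => (hP e he i).2.le.trans (hW e' he' j).1
      have h24 : ∀ e ∈ H, ∀ i, bl m n (rk e) 0 i ≤ u := fun e he i => by
        have := hP e he i
        omega
      rintro p ⟨e, he, ⟨j, rfl⟩ | ⟨j, rfl⟩ | rfl⟩ q ⟨e', he', ⟨j', rfl⟩ | ⟨j', rfl⟩ | rfl⟩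
      · rcases hH.tri he he' with rfl | ⟨h1, h2⟩ | ⟨h1, h2⟩
        · exact (le_total _ _).imp (fun h => ⟨fun _ => le_rfl, h⟩) fun h => ⟨fun _ => le_rfl, h⟩
        · exact Or.inl ⟨h1, hlt _ _ _ h2 _ _⟩
        · exact Or.inr ⟨h1, hlt _ _ _ h2 _ _⟩
      · exact Or.inl ⟨h12 e he e' he', h23 e he e' he' _ _⟩
      · exact Or.inl ⟨h13 e he e' he', h24 e he _⟩
      · exact Or.inr ⟨h12 e' he' e he, h23 e' he' e he _ _⟩
      · rcases hH.tri he he' with rfl | ⟨-, h2⟩ | ⟨-, h2⟩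
        · exact (le_total _ _).imp (fun h => ⟨fun _ => le_rfl, h⟩) fun h => ⟨fun _ => le_rfl, h⟩
        · exact Or.inl ⟨fun _ => hlt _ _ _ h2 _ _, hlt _ _ _ h2 _ _⟩
        · exact Or.inr ⟨fun _ => hlt _ _ _ h2 _ _, hlt _ _ _ h2 _ _⟩
      · exact Or.inl ⟨fun i => h23 e he e' he' i i, (hW e he _).2.le⟩
      · exact Or.inr ⟨h13 e' he' e he, h24 e' he' _⟩
      · exact Or.inr ⟨fun i => h23 e' he' e he i i, (hW e' he' _).2.le⟩
      · rcases hH.tri he he' with rfl | ⟨-, h2⟩ | ⟨-, h2⟩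
        · exact Or.inl ⟨fun _ => le_rfl, le_rfl⟩
        · exact Or.inl ⟨fun _ => hlt _ _ _ h2 _ _, le_rfl⟩
        · exact Or.inr ⟨fun _ => hlt _ _ _ h2 _ _, le_rfl⟩
    · intro c
      by_contra hcon
      push Not at hcon
      obtain ⟨e, he, hbad⟩ := hc c
      have g : ∀ p ∈ S, Good c (ap p) := fun p hp => hcon _ ⟨p, hp, rfl⟩
      obtain ⟨j, hj⟩ := (g _ ⟨e, he, Or.inr (Or.inr rfl)⟩).one
      have g2 := g _ ⟨e, he, Or.inr (Or.inl ⟨j, rfl⟩)⟩
      obtain ⟨i, hi⟩ := g2.red hj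
      obtain ⟨k, hk⟩ := g2.one
      exact hbad ⟨(g _ ⟨e, he, Or.inl ⟨k, rfl⟩⟩).red hk, (g _ ⟨e, he, Or.inl ⟨i, rfl⟩⟩).two hi⟩

theorem exists_lists (m : ℕ) :
    ∃ (n : ℕ) (H : Set (Fin m → ℕ)) (o : ℕ → ℕ), Ch H n ∧ (∀ v, o v < 3) ∧
      ∀ c : ℕ → ℕ, (∀ v, c v < 3 ∧ c v ≠ o v) → ∃ e ∈ H, ∃ x < 3, ∀ i, c (e i) = x := by
  induction m with
  | zero => exact ⟨0, Set.univ, fun _ => 0, ch_zero, fun _ => Nat.succ_pos _,
      fun c _ => ⟨Fin.elim0, trivial, 0, by omega, fun i => i.elim0⟩⟩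
  | succ m ih =>
    obtain ⟨n, H, o, hH, ho, hc⟩ := ih
    obtain ⟨R, hR⟩ : ∃ R, ∀ e ∈ H, rk e < R := ⟨m * n + 1, fun e he => Nat.lt_succ_of_le (hH.rk_le he)⟩
    obtain ⟨b, hb⟩ : ∃ b, b = n + 6 * (m * R) := ⟨_, rfl⟩
    have hP : ∀ e ∈ H, ∀ s < 6, ∀ i, n ≤ bl m n (rk e) s i ∧ bl m n (rk e) s i < b :=
      fun e he s hs i => ⟨le_trans (by omega) (le_bl _ _ _ _ i), hb ▸ bl_lt (hR e he) hs i⟩
    have hlt : ∀ r r' s s' : ℕ, r < r' → s < 6 → ∀ i j, bl m n r s i ≤ bl m n r' s' j :=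
      fun r r' s s' h hs i j => (bl_lt h hs i).le.trans (le_bl _ _ _ _ j)
    let S : Set ((Fin m → ℕ) × ℕ) := {p | ∃ e ∈ H, ∃ s < 6, (∃ j, p = (e, bl m n (rk e) s j)) ∨
      p = (bl m n (rk e) s, b + 3 * rk e + s / 2)}
    let o' : ℕ → ℕ := fun v => if v < n then o v else if v < b then
      ((v - n) % 6 / 2 + 1 + (v - n) % 2) % 3 else (v - b) % 3
    refine ⟨b + 3 * R, ap '' S, o', ch_ap S ?_ ?_ ?_, ?_, ?_⟩
    · rintro p ⟨e, he, s, hs, ⟨j, rfl⟩ | rfl⟩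
      · exact hH.mono e he
      · exact bl_mono _ _ _ _
    · rintro p ⟨e, he, s, hs, ⟨j, rfl⟩ | rfl⟩
      · exact ⟨fun i => (hH.lt e he i).trans_le (hP e he s hs j).1,
          by have := hP e he s hs j; dsimp only; omega⟩
      · exact ⟨fun i => by have := hP e he s hs i; dsimp only; omega,
          by have := hR e he; dsimp only; omega⟩
    · rintro p ⟨e, he, s, hs, ⟨j, rfl⟩ | rfl⟩ q ⟨e', he', s', hs', ⟨j', rfl⟩ | rfl⟩
      · rcases hH.tri he he' with rfl | ⟨h1, h2⟩ | ⟨h1, h2⟩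
        · exact (le_total _ _).imp (fun h => ⟨fun _ => le_rfl, h⟩) fun h => ⟨fun _ => le_rfl, h⟩
        · exact Or.inl ⟨h1, hlt _ _ _ _ h2 hs _ _⟩
        · exact Or.inr ⟨h1, hlt _ _ _ _ h2 hs' _ _⟩
      · exact Or.inl ⟨fun i => (hH.lt e he i).le.trans (hP e' he' s' hs' i).1,
          by have := hP e he s hs j; dsimp only; omega⟩
      · exact Or.inr ⟨fun i => (hH.lt e' he' i).le.trans (hP e he s hs i).1,
          by have := hP e' he' s' hs' j'; dsimp only; omega⟩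
      · rcases hH.tri he he' with rfl | ⟨-, h2⟩ | ⟨-, h2⟩
        · rcases le_total s s' with h | h
          · exact Or.inl ⟨fun i => by simp only [bl]; omega, by dsimp only; omega⟩
          · exact Or.inr ⟨fun i => by simp only [bl]; omega, by dsimp only; omega⟩
        · exact Or.inl ⟨fun _ => hlt _ _ _ _ h2 hs _ _, by dsimp only; omega⟩
        · exact Or.inr ⟨fun _ => hlt _ _ _ _ h2 hs' _ _, by dsimp only; omega⟩
    · intro v
      have := ho v
      simp only [o']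
      split_ifs <;> omega
    · intro c hco
      by_contra hcon
      push Not at hcon
      let c' : ℕ → ℕ := fun v => if v < n then c v else (o v + 1) % 3
      obtain ⟨e, he, x, hx, hm⟩ := hc c' (by
        intro v
        have h1 := hco v
        have h2 := ho v
        simp only [c', o'] at h1 ⊢
        split_ifs at h1 ⊢ <;> omega)
      have hm' : ∀ i, c (e i) = x := fun i => by
        have := hm i
        simpa only [c', if_pos (hH.lt e he i)] using this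
      have g : ∀ p ∈ S, ∀ y < 3, (∀ i, c (p.1 i) = y) → c p.2 ≠ y := by
        intro p hp y hy h1 h2
        obtain ⟨i, hi⟩ := hcon _ ⟨p, hp, rfl⟩ y hy
        induction i using Fin.lastCases with
        | last => exact hi (by simpa using h2)
        | cast i => exact hi (by simpa using h1 i)
      have g1 : ∀ t < 2, ∀ j, c (bl m n (rk e) (2 * x + t) j) = (x + 2 - t) % 3 := by
        intro t ht j
        have h1 := g _ ⟨e, he, 2 * x + t, by omega, Or.inl ⟨j, rfl⟩⟩ x hx hm'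
        have h2 := hco (bl m n (rk e) (2 * x + t) j)
        have h3 := hP e he (2 * x + t) (by omega) j
        simp only [o', if_neg (not_lt.2 h3.1), if_pos h3.2] at h2
        dsimp only at h1
        have h4 : bl m n (rk e) (2 * x + t) j - n = 6 * (m * rk e + j) + (2 * x + t) := by
          simp only [bl]; omega
        rw [h4, show (6 * (m * rk e + j) + (2 * x + t)) % 6 / 2 = x by omega,
          show (6 * (m * rk e + j) + (2 * x + t)) % 2 = t by omega] at h2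
        generalize c (bl m n (rk e) (2 * x + t) j) = y at h1 h2
        obtain ⟨h2, h5⟩ := h2
        interval_cases x <;> interval_cases t <;> omega
      have h0 := g _ ⟨e, he, 2 * x + 0, by omega, Or.inr rfl⟩ _ (by omega) (g1 0 (by omega))
      have h1 := g _ ⟨e, he, 2 * x + 1, by omega, Or.inr rfl⟩ _ (by omega) (g1 1 (by omega))
      have h2 := hco (b + 3 * rk e + x)
      have e0 : (2 * x + 0) / 2 = x := by omega
      have e1 : (2 * x + 1) / 2 = x := by omega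
      simp only [e0] at h0
      simp only [e1] at h1
      simp only [o', if_neg (show ¬ b + 3 * rk e + x < n by omega),
        if_neg (show ¬ b + 3 * rk e + x < b by omega)] at h2
      omega

/-- From tuples of natural numbers to subsets of a finite chain. -/
theorem Ch.transfer {m n : ℕ} {H : Set (Fin m → ℕ)} (h : Ch H n) :
    ∃ (G : Finset (Finset (Fin n))) (hG : ∀ A ∈ G, A.card = m),
      (∀ A (hA : A ∈ G) B (hB : B ∈ G),
        (∀ i : Fin m, A.orderEmbOfFin (hG A hA) i ≤ B.orderEmbOfFin (hG B hB) i) ∨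
        (∀ i : Fin m, B.orderEmbOfFin (hG B hB) i ≤ A.orderEmbOfFin (hG A hA) i)) ∧
      ∀ e ∈ H, ∃ A ∈ G, ∀ x : Fin n, x ∈ A ↔ ∃ i, e i = x := by
  classical
  let f : ∀ e ∈ H, Fin m → Fin n := fun e he i => ⟨e i, h.lt e he i⟩
  have hf : ∀ e (he : e ∈ H), StrictMono (f e he) := fun e he i j hij => h.mono e he hij
  let G : Finset (Finset (Fin n)) :=
    Finset.univ.filter fun A => ∃ e, ∃ he : e ∈ H, A = Finset.univ.image (f e he)
  have hG : ∀ A ∈ G, A.card = m := by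
    intro A hA
    obtain ⟨e, he, rfl⟩ := (Finset.mem_filter.1 hA).2
    rw [Finset.card_image_of_injective _ (hf e he).injective]
    simp
  refine ⟨G, hG, ?_, ?_⟩
  · intro A hA B hB
    obtain ⟨e, he, h1⟩ := (Finset.mem_filter.1 hA).2
    obtain ⟨e', he', h2⟩ := (Finset.mem_filter.1 hB).2
    rw [← Finset.orderEmbOfFin_unique (hG A hA) (f := f e he) (fun i => by simp [h1]) (hf e he),
      ← Finset.orderEmbOfFin_unique (hG B hB) (f := f e' he') (fun i => by simp [h2]) (hf e' he')]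
    exact h.cmp e he e' he'
  · intro e he
    refine ⟨_, Finset.mem_filter.2 ⟨Finset.mem_univ _, e, he, rfl⟩, fun x => ?_⟩
    simp [f, Fin.ext_iff]

theorem one_two (m : ℕ) :
    ∃ (n : ℕ) (H : Finset (Finset (Fin n))) (hH : ∀ A ∈ H, A.card = m),
      (∀ A (hA : A ∈ H) B (hB : B ∈ H),
        (∀ i : Fin m, A.orderEmbOfFin (hH A hA) i ≤ B.orderEmbOfFin (hH B hB) i) ∨
        (∀ i : Fin m, B.orderEmbOfFin (hH B hB) i ≤ A.orderEmbOfFin (hH A hA) i)) ∧
      ∀ R : Finset (Fin n), ∃ A ∈ H, A ∩ R = ∅ ∨ (A \ R).card ≤ 1 := by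
  classical
  obtain ⟨n, H, hH, hc⟩ := exists_one_two m
  obtain ⟨G, hG, h1, h2⟩ := hH.transfer
  refine ⟨n, G, hG, h1, fun R => ?_⟩
  obtain ⟨e, he, hbad⟩ := hc fun v => decide (∃ x ∈ R, (x : ℕ) = v)
  obtain ⟨A, hA, hAe⟩ := h2 e he
  refine ⟨A, hA, ?_⟩
  by_contra hcon
  push Not at hcon
  obtain ⟨⟨x, hx⟩, h3⟩ := hcon
  obtain ⟨y, hy, z, hz, hyz⟩ := Finset.one_lt_card.1 h3
  rw [Finset.mem_inter] at hx
  rw [Finset.mem_sdiff] at hy hz
  obtain ⟨i, hi⟩ := (hAe x).1 hx.1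
  obtain ⟨j, hj⟩ := (hAe y).1 hy.1
  obtain ⟨k, hk⟩ := (hAe z).1 hz.1
  refine hbad ⟨⟨i, decide_eq_true ⟨x, hx.2, hi.symm⟩⟩, j, k, ?_, decide_eq_false ?_,
    decide_eq_false ?_⟩
  · rintro rfl
    exact hyz (Fin.ext (hj.symm.trans hk))
  · rintro ⟨w, hw, h⟩
    exact hy.2 (Fin.ext (h.trans hj) ▸ hw)
  · rintro ⟨w, hw, h⟩
    exact hz.2 (Fin.ext (h.trans hk) ▸ hw)

theorem lists (m : ℕ) :
    ∃ (n : ℕ) (H : Finset (Finset (Fin n))) (hH : ∀ A ∈ H, A.card = m),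
      (∀ A (hA : A ∈ H) B (hB : B ∈ H),
        (∀ i : Fin m, A.orderEmbOfFin (hH A hA) i ≤ B.orderEmbOfFin (hH B hB) i) ∨
        (∀ i : Fin m, B.orderEmbOfFin (hH B hB) i ≤ A.orderEmbOfFin (hH A hA) i)) ∧
      ∃ L : Fin n → Finset (Fin 3), (∀ x, (L x).card = 2) ∧
        ∀ c : Fin n → Fin 3, (∀ x, c x ∈ L x) → ∃ A ∈ H, ∀ x ∈ A, ∀ y ∈ A, c x = c y := by
  classical
  obtain ⟨n, H, o, hH, ho, hc⟩ := exists_lists m
  obtain ⟨G, hG, h1, h2⟩ := hH.transfer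
  refine ⟨n, G, hG, h1, fun x => Finset.univ.erase ⟨o x, ho x⟩, fun x => by simp, fun c hL => ?_⟩
  obtain ⟨e, he, t, -, ht⟩ := hc (fun v => if h : v < n then (c ⟨v, h⟩ : ℕ) else (o v + 1) % 3) (by
    intro v
    by_cases h : v < n
    · simp only [dif_pos h]
      exact ⟨(c ⟨v, h⟩).2, fun h' => (Finset.mem_erase.1 (hL ⟨v, h⟩)).1 (Fin.ext h')⟩
    · have := ho v
      simp only [dif_neg h]
      omega)
  obtain ⟨A, hA, hAe⟩ := h2 e he
  have key : ∀ x ∈ A, (c x : ℕ) = t := by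
    intro x hx
    obtain ⟨i, hi⟩ := (hAe x).1 hx
    have := ht i
    simpa only [hi, dif_pos x.2] using this
  exact ⟨A, hA, fun x hx y hy => Fin.ext ((key x hx).trans (key y hy).symm)⟩

end Pool.Agent.Lib.MP_e3676c_co.Sharp
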